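import Pool.Agent.H75.PR.I3b

/-!
# Project PR (helper62), part I3: odd primes modulo which the cubic polynomial has no zero

Author: helper75.
-/

set_option autoImplicit false

open Polynomial
open scoped Classical

namespace Pool.Agent.H75.PR

open Pool.Agent.N922.PQ Pool.Agent.N907.PV

theorem primitive_part (p : ℕ) (hp : p.Prime) (v : Fin 3 → ℤ) (hv : v ≠ 0) :
    ∃ (k : ℕ) (u : Fin 3 → ℤ), (∀ i, v i = (p : ℤ) ^ k * u i) ∧ ¬ ∀ i, (p : ℤ) ∣ u i := by
  obtain ⟨j, hj⟩ : ∃ j, v j ≠ 0 := Function.ne_iff.1 hv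
  have hfin : FiniteMultiplicity (p : ℤ) (v j) := by
    rw [Int.finiteMultiplicity_iff]
    refine ⟨?_, hj⟩
    simpa using hp.one_lt.ne'
  obtain ⟨N, hN⟩ := hfin
  have hex : ∃ k, ¬ ∀ i, (p : ℤ) ^ (k + 1) ∣ v i := ⟨N, fun h => hN (h j)⟩
  let k := Nat.find hex
  have hk : ¬ ∀ i, (p : ℤ) ^ (k + 1) ∣ v i := Nat.find_spec hex
  have hk2 : ∀ i, (p : ℤ) ^ k ∣ v i := by
    rcases Nat.eq_zero_or_pos k with h0 | h0
    · intro i
      rw [h0, pow_zero]
      exact one_dvd _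
    · have := Nat.find_min hex (m := k - 1) (by omega)
      rw [not_not] at this
      rwa [Nat.sub_add_cancel h0] at this
  choose u hu using hk2
  refine ⟨k, u, hu, fun h => hk fun i => ?_⟩
  rw [hu i, pow_succ]
  exact mul_dvd_mul_left _ (h i)

theorem dn_eq_nf (a b : ℤ) (v : Fin 3 → ℤ) : dn a b v = nf a b v := by
  unfold dn nf
  ring

theorem nf_smul {R : Type} [CommRing R] (A B r : R) (u : Fin 3 → R) :
    nf A B (fun i => r * u i) = r ^ 3 * nf A B u := by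
  unfold nf
  ring

theorem nf_zmod_ne (p : ℕ) [Fact p.Prime] (A B : ZMod p) (hirr : ∀ z : ZMod p, z ^ 3 + A * z + B ≠ 0)
    (u : Fin 3 → ZMod p) (hu : u ≠ 0) : nf A B u ≠ 0 := by
  have : Fact (Irreducible (ff A B)) := ⟨ff_irr A B hirr⟩
  obtain ⟨b, hb⟩ := basis3 A B
  have : Module.Finite (ZMod p) (AdjoinRoot (ff A B)) := Module.Finite.of_basis b
  rw [← norm_form b _ hb A B (root_eq A B) u, AdjoinRoot.aeval_eq]
  rw [Ne, Algebra.norm_eq_zero_iff]
  intro h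
  apply hu
  refine mk_inj A B (v := 0) ?_
  rw [h]
  simp [pl]

theorem isSq_split (p : ℕ) (hp : p.Prime) (k : ℕ) (n : ℤ) (hn : ¬ (p : ℤ) ∣ n)
    (h : IsSquare ((p : ℤ) ^ (3 * k) * n)) : ∃ (j : ℕ) (w : ℤ), k = 2 * j ∧ n = w ^ 2 := by
  obtain ⟨z, hz⟩ := h
  have hpi : Prime (p : ℤ) := Nat.prime_iff_prime_int.1 hp
  have hn0 : n ≠ 0 := by
    rintro rfl
    exact hn (dvd_zero _)
  have hz0 : z ≠ 0 := by
    rintro rfl
    rw [mul_zero] at hz
    rcases mul_eq_zero.1 hz with h | h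
    · exact pow_ne_zero _ hpi.ne_zero h
    · exact hn0 h
  have hfin : FiniteMultiplicity (p : ℤ) z := by
    rw [Int.finiteMultiplicity_iff]
    exact ⟨by simpa using hp.one_lt.ne', hz0⟩
  obtain ⟨w, hw, hpw⟩ := hfin.exists_eq_pow_mul_and_not_dvd
  set e := multiplicity (p : ℤ) z
  have h1 : (p : ℤ) ^ (3 * k) * n = (p : ℤ) ^ (2 * e) * w ^ 2 := by
    rw [hz, hw]
    ring
  have hw2 : ¬ (p : ℤ) ∣ w ^ 2 := fun h => hpw (hpi.dvd_of_dvd_pow h)
  have h2 : 3 * k = 2 * e := by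
    rcases lt_trichotomy (3 * k) (2 * e) with h | h | h
    · exfalso
      obtain ⟨d, hd⟩ := Nat.exists_eq_add_of_lt h
      apply hn
      have h3 : (p : ℤ) ^ (3 * k) * n = (p : ℤ) ^ (3 * k) * ((p : ℤ) ^ (d + 1) * w ^ 2) := by
        rw [h1, hd]
        ring
      rw [mul_left_cancel₀ (pow_ne_zero _ hpi.ne_zero) h3, pow_succ']
      exact ⟨(p : ℤ) ^ d * w ^ 2, by ring⟩
    · exact h
    · exfalso
      obtain ⟨d, hd⟩ := Nat.exists_eq_add_of_lt h
      apply hw2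
      have h3 : (p : ℤ) ^ (2 * e) * w ^ 2 = (p : ℤ) ^ (2 * e) * ((p : ℤ) ^ (d + 1) * n) := by
        rw [← h1, hd]
        ring
      rw [mul_left_cancel₀ (pow_ne_zero _ hpi.ne_zero) h3, pow_succ']
      exact ⟨(p : ℤ) ^ d * n, by ring⟩
  refine ⟨k / 2, w, by omega, ?_⟩
  rw [h2] at h1
  exact mul_left_cancel₀ (pow_ne_zero _ hpi.ne_zero) h1

theorem isCub_twist {L : Type} [Field L] [NumberField L] {a b D : ℤ} {θ : L} (h : IsCub a b θ)
    (hD : D ≠ 0) : IsCub (a * D ^ 2) (b * D ^ 3) ((D : L) * θ) := by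
  have hD' : (D : L) ≠ 0 := by exact_mod_cast hD
  refine ⟨?_, h.rank, fun x => ?_⟩
  · have := h.root
    push_cast
    linear_combination (D : L) ^ 3 * this
  · obtain ⟨r, s, t, rfl⟩ := h.gen x
    refine ⟨r, s / D, t / D ^ 2, ?_⟩
    push_cast
    field_simp

theorem hirr_twist (p : ℕ) [Fact p.Prime] (a b D : ℤ) (hD : ¬ (p : ℤ) ∣ D)
    (h : ∀ z : ℤ, ¬ (p : ℤ) ∣ z ^ 3 + a * z + b) (z : ZMod p) :
    z ^ 3 + ((a * D ^ 2 : ℤ) : ZMod p) * z + ((b * D ^ 3 : ℤ) : ZMod p) ≠ 0 := by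
  intro h0
  have hd : (D : ZMod p) ≠ 0 := by
    rwa [Ne, ZMod.intCast_zmod_eq_zero_iff_dvd]
  obtain ⟨y, hy⟩ := ZMod.intCast_surjective (z / (D : ZMod p))
  apply h y
  rw [← ZMod.intCast_zmod_eq_zero_iff_dvd]
  push_cast at h0 ⊢
  have h1 : z = D * (y : ZMod p) := by
    rw [hy]
    field_simp
  rw [h1] at h0
  have h2 : (D : ZMod p) ^ 3 * ((y : ZMod p) ^ 3 + a * y + b) = 0 := by
    rw [← h0]
    ring
  rcases mul_eq_zero.1 h2 with h3 | h3
  · exact absurd (pow_eq_zero_iff (three_ne_zero) |>.1 h3) hd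
  · exact h3

/-- Part I3 of project PR. -/
theorem s_I3 : Pool.Agent.H62.PR.S_I3 := by
  intro L _ _ a b D θ hcub p _ hp2 hpD hz h h0 hsq
  left
  have hp : p.Prime := Fact.out
  have hD : D ≠ 0 := by
    rintro rfl
    exact hpD (dvd_zero _)
  have hc := isCub_twist hcub hD
  have hir := hirr_twist p a b D hpD hz
  generalize a * D ^ 2 = A at *
  generalize b * D ^ 3 = B at *
  generalize (D : L) * θ = t at *
  -- division with remainder
  obtain ⟨r, hr⟩ := exists_pl (h %ₘ ff (A : ℚ) (B : ℚ)) (by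
    have := degree_modByMonic_lt h (ff_monic (A : ℚ) (B : ℚ))
    rwa [ff_degree] at this)
  have hdiv := modByMonic_add_div h (ff (A : ℚ) (B : ℚ))
  rw [hr] at hdiv
  set q := h /ₘ ff (A : ℚ) (B : ℚ)
  have hroot : aeval t (ff (A : ℚ) (B : ℚ)) = 0 := by
    have := hc.root
    simp only [ff, map_add, map_mul, map_pow, aeval_X, aeval_C]
    simpa using this
  have hval : aeval t h = (r 0 : L) + (r 1 : L) * t + (r 2 : L) * t ^ 2 := by
    rw [← hdiv, map_add, map_mul, hroot, zero_mul, add_zero]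
    simp [pl]
  -- common denominator
  obtain ⟨m, hm, v0, hv0⟩ : ∃ m : ℤ, m ≠ 0 ∧ ∃ v : Fin 3 → ℤ, ∀ i, (m : ℚ) * r i = v i := by
    refine ⟨(r 0).den * (r 1).den * (r 2).den, by positivity,
      ![(r 0).num * (r 1).den * (r 2).den, (r 0).den * (r 1).num * (r 2).den,
        (r 0).den * (r 1).den * (r 2).num], ?_⟩
    intro i
    have h1 := Rat.mul_den_eq_num (r 0)
    have h2 := Rat.mul_den_eq_num (r 1)
    have h3 := Rat.mul_den_eq_num (r 2)
    fin_cases i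
    · simp only [Fin.zero_eta, Matrix.cons_val_zero]
      push_cast
      linear_combination ((r 1).den : ℚ) * (r 2).den * h1
    · simp only [Fin.mk_one, Matrix.cons_val_one, Matrix.cons_val_zero]
      push_cast
      linear_combination ((r 0).den : ℚ) * (r 2).den * h2
    · simp only [Fin.reduceFinMk, Matrix.cons_val]
      push_cast
      linear_combination ((r 0).den : ℚ) * (r 1).den * h3
  have hmL : (m : L) ≠ 0 := by exact_mod_cast hm
  have hmQ : (m : ℚ) ≠ 0 := by exact_mod_cast hm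
  let v : Fin 3 → ℤ := fun i => m * v0 i
  have hvr : ∀ i, (v i : ℚ) = (m : ℚ) ^ 2 * r i := by
    intro i
    have := hv0 i
    simp only [v]
    push_cast
    rw [← this]
    ring
  have hcrd : Crd t v ((((m : ℚ) ^ 2 : ℚ) : L) * aeval t h) := by
    unfold Crd
    have e : ∀ i, (v i : L) = (((m : ℚ) ^ 2 : ℚ) : L) * ((r i : ℚ) : L) := by
      intro i
      rw [← Rat.cast_mul, ← hvr i]
      push_cast
      rfl
    rw [e, e, e, hval]
    ring
  have hnorm := norm_crd hc hcrd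
  rw [norm_ratCast hc] at hnorm
  have hv1 : v ≠ 0 := by
    intro hv
    have h1 : (((m : ℚ) ^ 2 : ℚ) : L) * aeval t h = 0 := by
      rw [hcrd, hv]
      simp
    rcases mul_eq_zero.1 h1 with h2 | h2
    · apply hmL
      have : (m : L) ^ 2 = 0 := by
        rw [← h2]
        push_cast
        rfl
      exact pow_eq_zero_iff (two_ne_zero) |>.1 this
    · exact h0 h2
  obtain ⟨k, u, hu, hpu⟩ := primitive_part p hp v hv1
  have hdn : dn A B v = (p : ℤ) ^ (3 * k) * nf A B u := by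
    rw [dn_eq_nf]
    have : v = fun i => (p : ℤ) ^ k * u i := funext hu
    have e := nf_smul A B ((p : ℤ) ^ k) u
    rw [this]
    refine e.trans ?_
    rw [← pow_mul, mul_comm k 3]
  have hsqv : IsSquare ((p : ℤ) ^ (3 * k) * nf A B u) := by
    rw [← hdn, ← Rat.isSquare_intCast_iff, ← hnorm]
    obtain ⟨x, hx⟩ := hsq
    rw [hx]
    exact ⟨(m : ℚ) ^ 3 * x, by ring⟩
  have hmodp : ((nf A B u : ℤ) : ZMod p) = nf (A : ZMod p) (B : ZMod p) (fun i => (u i : ZMod p)) :=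
    nf_map (Int.castRingHom (ZMod p)) A B u
  have hupne : (fun i => (u i : ZMod p)) ≠ 0 := by
    intro h1
    apply hpu
    intro i
    rw [← ZMod.intCast_zmod_eq_zero_iff_dvd]
    exact congrFun h1 i
  have hndvd : ¬ (p : ℤ) ∣ nf A B u := by
    rw [← ZMod.intCast_zmod_eq_zero_iff_dvd, hmodp]
    exact nf_zmod_ne p _ _ hir _ hupne
  obtain ⟨j, w, hkj, hw⟩ := isSq_split p hp k _ hndvd hsqv
  have hwp : (w : ZMod p) ≠ 0 := by
    intro h1
    apply hndvd
    rw [ZMod.intCast_zmod_eq_zero_iff_dvd] at h1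
    rw [hw]
    exact Dvd.dvd.pow h1 two_ne_zero
  have hA : PadicInt.toZMod ((A : ℤ) : ℤ_[p]) = (A : ZMod p) := map_intCast _ _
  have hB : PadicInt.toZMod ((B : ℤ) : ℤ_[p]) = (B : ZMod p) := map_intCast _ _
  obtain ⟨c, hc2⟩ := exact_root p hp2 (A : ℤ_[p]) (B : ℤ_[p]) (by rw [hA, hB]; exact hir)
    (fun i => (u i : ℤ_[p])) (w : ZMod p) hwp (by
      rw [hA, hB]
      have e : (fun i => PadicInt.toZMod ((u i : ℤ) : ℤ_[p])) = fun i => (u i : ZMod p) :=
        funext fun i => map_intCast _ _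
      rw [e, ← hmodp, hw]
      push_cast
      ring)
  -- the polynomial identity over the field of `p`-adic numbers
  have hid := congrArg (Polynomial.map (algebraMap ℤ_[p] ℚ_[p])) (sq_pl (A : ℤ_[p]) (B : ℤ_[p]) c)
  rw [← hc2, Polynomial.map_sub, Polynomial.map_mul, Polynomial.map_pow, ff_map, pl_map, pl_map,
    map_intCast, map_intCast] at hid
  have hu' : pl (fun i => algebraMap ℤ_[p] ℚ_[p] ((u i : ℤ) : ℤ_[p])) =
      pl (fun i => ((u i : ℤ) : ℚ_[p])) :=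
    congrArg pl (funext fun i => map_intCast (algebraMap ℤ_[p] ℚ_[p]) (u i))
  rw [hu'] at hid
  set G := pl (fun i => algebraMap ℤ_[p] ℚ_[p] (c i)) with hG
  set E := Polynomial.map (algebraMap ℤ_[p] ℚ_[p]) (C (c 2 ^ 2) * X + C (2 * c 1 * c 2)) with hE
  have hmP : (m : ℚ_[p]) ≠ 0 := by exact_mod_cast hm
  let s : ℚ_[p] := (p : ℚ_[p]) ^ j / (m : ℚ_[p])
  have hrs : (pl r).map (algebraMap ℚ ℚ_[p]) = C (s ^ 2) * pl (fun i => ((u i : ℤ) : ℚ_[p])) := by
    rw [pl_map, pl_smul]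
    congr 1
    funext i
    have h1 := hvr i
    have h2 := hu i
    have h3 : ((v i : ℚ) : ℚ_[p]) = (((m : ℚ) ^ 2 * r i : ℚ) : ℚ_[p]) := by rw [h1]
    push_cast at h3
    rw [h2, hkj] at h3
    push_cast at h3
    simp only [s, eq_ratCast]
    field_simp
    linear_combination -h3
  refine ⟨C s * G, ?_⟩
  have hFA : (X ^ 3 + C (algebraMap ℚ ℚ_[p] (A : ℚ)) * X + C (algebraMap ℚ ℚ_[p] (B : ℚ)) : ℚ_[p][X])
      = ff (A : ℚ_[p]) (B : ℚ_[p]) := by
    unfold ff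
    rw [map_intCast (algebraMap ℚ ℚ_[p]) A, map_intCast (algebraMap ℚ ℚ_[p]) B]
  rw [hFA]
  have hh : h.map (algebraMap ℚ ℚ_[p]) = (pl r).map (algebraMap ℚ ℚ_[p]) +
      ff (A : ℚ_[p]) (B : ℚ_[p]) * q.map (algebraMap ℚ ℚ_[p]) := by
    rw [← hdiv, Polynomial.map_add, Polynomial.map_mul, ff_map, map_intCast, map_intCast]
  refine ⟨q.map (algebraMap ℚ ℚ_[p]) - C (s ^ 2) * E, ?_⟩
  rw [hh, hrs, ← hid]
  simp only [map_pow]
  ring

end Pool.Agent.H75.PR
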