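import Pool.Agent.H62.PR.Cnt0
import Pool.Graph.R_pool_sql_team_seeded_63374d34.N50.PQ.Box
import Pool.Graph.R_pool_sql_team_seeded_63374d34.N50.PQ.Orb
import Pool.Graph.R_pool_sql_team_seeded_63374d34.N415.PQ.Bad

/-!
# Project PR (helper62), part CNT: the number of curves which come from tuples with given local
conditions (helper75, after helper50, helper160, helper415, helper530)
-/

set_option autoImplicit false
set_option linter.all false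

open scoped Classical

namespace Pool.Agent.H75.PR.Cnt

open Pool.Agent.N874.PP (Tup chA chB gq tau Two)
open Pool.Agent.N922.PQ Pool.Agent.N50.PQ Pool.Agent.N415.PQ
open Pool.Agent.H62.PR

/-- The tuples over which we count. -/
structure XS (κ X T : ℕ) (S : Finset ℤ) (C : ℤ → Tup ℤ → Prop) (B : Tup ℤ) : Prop where
  box : InBox κ X T B
  nz : B.x ≠ 0
  co : ∀ Q ∈ S, C Q B

/-- integers with the same residues modulo the `mo Q` and the same quotient by the product -/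
lemma crt_inj' {S : Finset ℤ} {mo : ℤ → ℕ}
    (hS : ∀ Q ∈ S, ∀ Q' ∈ S, Q ≠ Q' → (mo Q).Coprime (mo Q')) {f g : ℤ}
    (h : ∀ Q ∈ S, (f : ZMod (mo Q)) = (g : ZMod (mo Q)))
    (hd : f / (∏ Q ∈ S, (mo Q : ℤ)) = g / (∏ Q ∈ S, (mo Q : ℤ))) : f = g := by
  have hdvd : (∏ Q ∈ S, (mo Q : ℤ)) ∣ f - g := by
    apply Finset.prod_dvd_of_coprime
    · intro Q hQ Q' hQ' hne
      show IsCoprime (mo Q : ℤ) (mo Q' : ℤ)
      rw [Nat.isCoprime_iff_coprime]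
      exact hS Q hQ Q' hQ' hne
    · intro Q hQ
      have := h Q hQ
      rw [← sub_eq_zero, ← Int.cast_sub, ZMod.intCast_zmod_eq_zero_iff_dvd] at this
      exact this
  have hmod : f % (∏ Q ∈ S, (mo Q : ℤ)) = g % (∏ Q ∈ S, (mo Q : ℤ)) :=
    Int.emod_eq_emod_iff_emod_sub_eq_zero.2 (Int.emod_eq_zero_of_dvd hdvd)
  rw [← Int.mul_ediv_add_emod f (∏ Q ∈ S, (mo Q : ℤ)),
    ← Int.mul_ediv_add_emod g (∏ Q ∈ S, (mo Q : ℤ)), hmod, hd]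

theorem box' (κ : ℕ) (S : Finset ℤ) (mo : ℤ → ℕ) (C : ℤ → Tup ℤ → Prop)
    (hmo : ∀ Q ∈ S, 1 ≤ mo Q) (hco : ∀ Q ∈ S, ∀ Q' ∈ S, Q ≠ Q' → (mo Q).Coprime (mo Q'))
    (X T : ℕ) (hT : 1 ≤ T) (hMX : (∏ Q ∈ S, mo Q) * T ^ 2 ≤ κ * X) :
    {B : Tup ℤ | XS κ X T S C B}.Finite ∧
    (∏ Q ∈ S, mo Q) ^ 5 * {B : Tup ℤ | XS κ X T S C B}.ncard ≤
      (∏ Q ∈ S, NC (mo Q) (C Q)) * ((4 * κ) ^ 5 * X ^ 5) := by
  obtain ⟨M, hM⟩ : ∃ M : ℤ, M = ∏ Q ∈ S, (mo Q : ℤ) := ⟨_, rfl⟩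
  have hMN : ((∏ Q ∈ S, mo Q : ℕ) : ℤ) = M := by rw [hM]; push_cast; rfl
  have hMX' : M * (T : ℤ) ^ 2 ≤ (κ : ℤ) * X := by
    rw [← hMN]
    exact_mod_cast hMX
  have hM0 : 0 < M := by
    rw [hM]
    exact Finset.prod_pos fun Q hQ => by exact_mod_cast hmo Q hQ
  obtain ⟨t, ht⟩ : ∃ t : ℤ, t = (T : ℤ) := ⟨_, rfl⟩
  have ht1 : 1 ≤ t := by rw [ht]; exact_mod_cast hT
  rw [← ht] at hMX'
  obtain ⟨K, hK⟩ : ∃ K : ℤ, K = (κ : ℤ) * X := ⟨_, rfl⟩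
  rw [← hK] at hMX'
  have hb : ∀ B : Tup ℤ, XS κ X T S C B → |B.x| * t ^ 2 ≤ K ∧ |B.y| * t ≤ K ∧ |B.c| * 1 ≤ K ∧
      |B.z| * 1 ≤ K * t ∧ |B.w| * 1 ≤ K * t ^ 2 := by
    intro B hB
    obtain ⟨b1, b2, b3, b4, b5⟩ := hB.box
    rw [← ht] at b1 b2 b4 b5
    rw [← hK] at b1 b2 b3 b4 b5
    simp only [mul_one]
    exact ⟨b1, b2, b3, b4, b5⟩
  have ht2 : 0 < t ^ 2 := by positivity
  have ht0 : 0 < t := by linarith
  have htt : t ≤ t ^ 2 := by nlinarith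
  have hMt : M ≤ K := by nlinarith
  have hK0 : 0 < K := lt_of_lt_of_le hM0 hMt
  obtain ⟨a1, c1, d1⟩ := card_iv (L := K) hM0 ht2 (by linarith)
  obtain ⟨a2, c2, d2⟩ := card_iv (L := K) hM0 ht0 (by nlinarith)
  obtain ⟨a3, c3, d3⟩ := card_iv (q := 1) (L := K) hM0 one_pos (by linarith)
  obtain ⟨a4, c4, d4⟩ := card_iv (q := 1) (L := K * t) hM0 one_pos (by nlinarith)
  obtain ⟨a5, c5, d5⟩ := card_iv (q := 1) (L := K * t ^ 2) hM0 one_pos (by nlinarith)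
  let G : {Q // Q ∈ S} → Type := fun Q =>
    {R : Tup (ZMod (mo Q.1)) // ∃ B : Tup ℤ, C Q.1 B ∧ tred (mo Q.1) B = R}
  let Tt : Type := (∀ Q : {Q // Q ∈ S}, G Q) ×
    (Finset.Icc (-(K / (t ^ 2 * M) + 1)) (K / (t ^ 2 * M))) ×
    (Finset.Icc (-(K / (t * M) + 1)) (K / (t * M))) ×
    (Finset.Icc (-(K / (1 * M) + 1)) (K / (1 * M))) ×
    (Finset.Icc (-(K * t / (1 * M) + 1)) (K * t / (1 * M))) ×
    (Finset.Icc (-(K * t ^ 2 / (1 * M) + 1)) (K * t ^ 2 / (1 * M)))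
  let Φ : {B : Tup ℤ | XS κ X T S C B} → Tt := fun B =>
    (fun Q => ⟨tred (mo Q.1) B.1, B.1, B.2.co Q.1 Q.2, rfl⟩,
      ⟨B.1.x / M, div_mem hM0 ht2 (hb B.1 B.2).1⟩, ⟨B.1.y / M, div_mem hM0 ht0 (hb B.1 B.2).2.1⟩,
      ⟨B.1.c / M, div_mem hM0 one_pos (hb B.1 B.2).2.2.1⟩,
      ⟨B.1.z / M, div_mem hM0 one_pos (hb B.1 B.2).2.2.2.1⟩,
      ⟨B.1.w / M, div_mem hM0 one_pos (hb B.1 B.2).2.2.2.2⟩)
  have hΦ : Function.Injective Φ := by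
    rintro ⟨B, hB⟩ ⟨B', hB'⟩ h
    have h1 : B.x / M = B'.x / M := congrArg (fun t : Tt => (t.2.1 : ℤ)) h
    have h2 : B.y / M = B'.y / M := congrArg (fun t : Tt => (t.2.2.1 : ℤ)) h
    have h3 : B.c / M = B'.c / M := congrArg (fun t : Tt => (t.2.2.2.1 : ℤ)) h
    have h4 : B.z / M = B'.z / M := congrArg (fun t : Tt => (t.2.2.2.2.1 : ℤ)) h
    have h5 : B.w / M = B'.w / M := congrArg (fun t : Tt => (t.2.2.2.2.2 : ℤ)) h
    rw [hM] at h1 h2 h3 h4 h5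
    have hQ : ∀ Q ∈ S, tred (mo Q) B = tred (mo Q) B' := by
      intro Q hQ
      exact congrArg (fun t : Tt => (t.1 ⟨Q, hQ⟩).1) h
    apply Subtype.ext
    exact Tup.ext (crt_inj' hco (fun Q h => congrArg Tup.x (hQ Q h)) h1)
      (crt_inj' hco (fun Q h => congrArg Tup.y (hQ Q h)) h2)
      (crt_inj' hco (fun Q h => congrArg Tup.c (hQ Q h)) h3)
      (crt_inj' hco (fun Q h => congrArg Tup.z (hQ Q h)) h4)
      (crt_inj' hco (fun Q h => congrArg Tup.w (hQ Q h)) h5)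
  haveI : ∀ Q : {Q // Q ∈ S}, Finite (G Q) := fun Q => by
    haveI : NeZero (mo Q.1) := ⟨by have := hmo Q.1 Q.2; omega⟩
    exact inferInstanceAs (Finite {R : Tup (ZMod (mo Q.1)) // ∃ B : Tup ℤ, C Q.1 B ∧
      tred (mo Q.1) B = R})
  haveI : Finite Tt := inferInstanceAs (Finite ((∀ Q : {Q // Q ∈ S}, G Q) × _ × _ × _ × _ × _))
  haveI hfin : Finite {B : Tup ℤ | XS κ X T S C B} := Finite.of_injective Φ hΦ
  refine ⟨Set.toFinite _, ?_⟩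
  have h1 := Nat.card_le_card_of_injective Φ hΦ
  rw [Nat.card_coe_set_eq] at h1
  have hcard : Nat.card Tt ≤ (∏ Q ∈ S, NC (mo Q) (C Q)) * (4 ^ 5 * (a1 * a2 * a3 * a4 * a5)) := by
    show Nat.card ((∀ Q : {Q // Q ∈ S}, G Q) × _ × _ × _ × _ × _) ≤ _
    rw [Nat.card_prod, Nat.card_prod, Nat.card_prod, Nat.card_prod, Nat.card_prod,
      Nat.card_pi]
    have e : ∏ Q : {Q // Q ∈ S}, Nat.card (G Q) = ∏ Q ∈ S, NC (mo Q) (C Q) :=
      Finset.prod_coe_sort S (fun Q => NC (mo Q) (C Q))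
    rw [e]
    refine Nat.mul_le_mul_left _ ?_
    calc _ ≤ 4 * a1 * (4 * a2 * (4 * a3 * (4 * a4 * (4 * a5)))) :=
          Nat.mul_le_mul c1 (Nat.mul_le_mul c2 (Nat.mul_le_mul c3 (Nat.mul_le_mul c4 c5)))
      _ = 4 ^ 5 * (a1 * a2 * a3 * a4 * a5) := by ring
  -- the product of the five bounds
  have e : (a1 * a2 * a3 * a4 * a5 : ℤ) * M ^ 5 ≤ K ^ 5 := by
    have q1 : (a1 * (t ^ 2 * M)) * ((a2 * (t * M)) * ((a3 * (1 * M)) * ((a4 * (1 * M)) *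
        (a5 * (1 * M))))) ≤ K * (K * (K * ((K * t) * (K * t ^ 2)))) := by
      have := hM0.le
      gcongr
    have q2 : (a1 * (t ^ 2 * M)) * ((a2 * (t * M)) * ((a3 * (1 * M)) * ((a4 * (1 * M)) *
        (a5 * (1 * M))))) = ((a1 * a2 * a3 * a4 * a5 : ℤ) * M ^ 5) * t ^ 3 := by ring
    have q3 : K * (K * (K * ((K * t) * (K * t ^ 2)))) = K ^ 5 * t ^ 3 := by ring
    rw [q2, q3] at q1
    exact le_of_mul_le_mul_right q1 (by positivity)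
  have e' : (a1 * a2 * a3 * a4 * a5) * (∏ Q ∈ S, mo Q) ^ 5 ≤ (κ * X) ^ 5 := by
    rw [← hMN, hK] at e
    exact_mod_cast e
  calc (∏ Q ∈ S, mo Q) ^ 5 * {B : Tup ℤ | XS κ X T S C B}.ncard
      ≤ (∏ Q ∈ S, mo Q) ^ 5 * ((∏ Q ∈ S, NC (mo Q) (C Q)) * (4 ^ 5 * (a1 * a2 * a3 * a4 * a5))) :=
        Nat.mul_le_mul_left _ (h1.trans hcard)
    _ = (∏ Q ∈ S, NC (mo Q) (C Q)) * (4 ^ 5 * ((a1 * a2 * a3 * a4 * a5) * (∏ Q ∈ S, mo Q) ^ 5)) := by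
        ring
    _ ≤ (∏ Q ∈ S, NC (mo Q) (C Q)) * (4 ^ 5 * (κ * X) ^ 5) := by gcongr
    _ = _ := by ring

theorem box0' (κ : ℕ) : ∃ K : ℕ, ∀ (S : Finset ℤ) (C : ℤ → Tup ℤ → Prop) (X T : ℕ), 1 ≤ T → 1 ≤ X →
    {B : Tup ℤ | XS κ X T S C B}.Finite ∧ {B : Tup ℤ | XS κ X T S C B}.ncard ≤ K * X ^ 5 := by
  obtain ⟨K, hK⟩ := box0 κ
  refine ⟨K, fun S C X T hT hX => ?_⟩
  obtain ⟨h1, h2⟩ := hK ∅ 0 X T hT hX
  have hsub : {B : Tup ℤ | XS κ X T S C B} ⊆ {B : Tup ℤ | Xset κ X T ∅ 0 B} := by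
    intro B hB
    exact ⟨hB.box, hB.nz, by simp, by simp, by simp⟩
  exact ⟨h1.subset hsub, (Set.ncard_le_ncard hsub h1).trans h2⟩

lemma X_tau' {κ X T : ℕ} {S : Finset ℤ} {C : ℤ → Tup ℤ → Prop}
    (hC : ∀ Q ∈ S, ∀ (u : ℤ) (B : Tup ℤ), C Q B → C Q (tau u B)) {B : Tup ℤ}
    (hB : XS κ X T S C B) {u : ℤ} (hu0 : 0 ≤ u) (hu : u ≤ T) :
    XS (29 * κ) X T S C (tau u B) :=
  ⟨box_tau hB.box hu0 hu, hB.nz, fun Q hQ => hC Q hQ u B (hB.co Q hQ)⟩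

theorem orb' (κ : ℕ) (S : Finset ℤ) (C : ℤ → Tup ℤ → Prop)
    (hC : ∀ Q ∈ S, ∀ (u : ℤ) (B : Tup ℤ), C Q B → C Q (tau u B)) (X T : ℕ)
    (hfin0 : {B : Tup ℤ | XS (29 * κ) X T S C B}.Finite) :
    {p : ℤ × ℤ | ∃ B : Tup ℤ, XS κ X T S C B ∧ chA B = p.1 ∧ chB B = p.2}.ncard * T ≤
    {B : Tup ℤ | XS (29 * κ) X T S C B}.ncard := by
  have hfin : Finite {B : Tup ℤ | XS (29 * κ) X T S C B} := hfin0.to_subtype
  rw [← Nat.card_coe_set_eq {B : Tup ℤ | XS (29 * κ) X T S C B}]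
  have hch : ∀ p : {p : ℤ × ℤ | ∃ B : Tup ℤ, XS κ X T S C B ∧ chA B = p.1 ∧ chB B = p.2},
      ∃ B : Tup ℤ, XS κ X T S C B ∧ chA B = p.1.1 ∧ chB B = p.1.2 := fun p => p.2
  choose B h1 h3 h4 using hch
  have e1 : {p : ℤ × ℤ | ∃ B : Tup ℤ, XS κ X T S C B ∧ chA B = p.1 ∧ chB B = p.2}.ncard * T =
      Nat.card ({p : ℤ × ℤ | ∃ B : Tup ℤ, XS κ X T S C B ∧ chA B = p.1 ∧ chB B = p.2} × Fin T) := by
    rw [Nat.card_prod, Nat.card_coe_set_eq, Nat.card_fin]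
  rw [e1]
  refine Nat.card_le_card_of_injective (fun z => (⟨tau ((z.2.1 : ℕ) : ℤ) (B z.1), X_tau' hC (h1 z.1)
    (Int.natCast_nonneg _) (by exact_mod_cast z.2.2.le)⟩ :
      {B : Tup ℤ | XS (29 * κ) X T S C B})) ?_
  rintro ⟨p, u⟩ ⟨p', u'⟩ h
  have h5 : tau ((u.1 : ℕ) : ℤ) (B p) = tau ((u'.1 : ℕ) : ℤ) (B p') := congrArg Subtype.val h
  have h6' : p = p' := by
    apply Subtype.ext
    refine Prod.ext ?_ ?_
    · rw [← h3 p, ← h3 p', ← chA_tau ((u.1 : ℕ) : ℤ) (B p), ← chA_tau ((u'.1 : ℕ) : ℤ) (B p'), h5]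
    · rw [← h4 p, ← h4 p', ← chB_tau ((u.1 : ℕ) : ℤ) (B p), ← chB_tau ((u'.1 : ℕ) : ℤ) (B p'), h5]
  subst h6'
  have h7 : (B p).y - 2 * ((u.1 : ℕ) : ℤ) * (B p).x = (B p).y - 2 * ((u'.1 : ℕ) : ℤ) * (B p).x :=
    congrArg Tup.y h5
  have h8 : (2 * (B p).x) * (((u.1 : ℕ) : ℤ) - ((u'.1 : ℕ) : ℤ)) = 0 := by linear_combination -h7
  have h9 : u = u' := by
    apply Fin.ext
    rcases mul_eq_zero.1 h8 with h10 | h10
    · rcases mul_eq_zero.1 h10 with h11 | h11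
      · exact absurd h11 (by norm_num)
      · exact absurd h11 (h1 p).nz
    · have := sub_eq_zero.1 h10
      exact_mod_cast this
  rw [h9]

/-- Part CNT of project PR. -/
theorem cnt : Pool.Agent.H62.PR.S_CNT := by
  intro κ
  obtain ⟨K0, hK0⟩ := box0' (29 * κ)
  obtain ⟨K2, hK2⟩ := box0' κ
  obtain ⟨K1, hK1d⟩ : ∃ K1 : ℕ, K1 = (4 * (29 * κ)) ^ 5 := ⟨_, rfl⟩
  refine ⟨4 * (K0 + K1), fun S mo C D A hD hA hmo hco hC hden => ?_⟩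
  obtain ⟨q, hq⟩ : ∃ q : ℕ, q = ∏ Q ∈ S, mo Q := ⟨_, rfl⟩
  have hq1 : 1 ≤ q := by
    rw [hq]
    exact Nat.succ_le_of_lt (Finset.prod_pos fun Q hQ => Nat.lt_of_succ_le (hmo Q hQ))
  obtain ⟨E, hE⟩ : ∃ E : ℕ, E = A * D ^ 5 := ⟨_, rfl⟩
  have hD5 : 1 ≤ D ^ 5 := Nat.one_le_pow _ _ hD
  have hE1 : 1 ≤ E := by rw [hE]; exact Nat.mul_pos hA hD5
  have hden' : E * ∏ Q ∈ S, NC (mo Q) (C Q) ≤ q ^ 5 := by
    rw [hE, hq, ← Finset.prod_pow]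
    exact hden
  refine ⟨E ^ 4 * q, fun X hX => ?_⟩
  have hX1 : 1 ≤ X := by
    refine le_trans ?_ hX
    exact Nat.one_le_iff_ne_zero.2 (by positivity)
  have hXD : 1 ≤ X * D := Nat.mul_pos hX1 hD
  let P : ℕ → Set (ℤ × ℤ) := fun m =>
    {p : ℤ × ℤ | ∃ B : Tup ℤ, XS κ (X * D) (2 ^ m) S C B ∧ chA B = p.1 ∧ chB B = p.2}
  have hT : ∀ m : ℕ, 1 ≤ 2 ^ m := fun m => Nat.one_le_two_pow
  have hPfin : ∀ m, (P m).Finite := by
    intro m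
    refine ((hK2 S C (X * D) (2 ^ m) (hT m) hXD).1.image fun B => (chA B, chB B)).subset ?_
    rintro p ⟨B, hB, ha, hb⟩
    exact ⟨B, hB, Prod.ext ha hb⟩
  have hsub : {p : ℤ × ℤ | ∃ (m : ℕ) (B : Tup ℤ), InBox κ (X * D) (2 ^ m) B ∧ B.x ≠ 0 ∧
      (∀ Q ∈ S, C Q B) ∧ chA B = p.1 ∧ chB B = p.2} ⊆
      ⋃ m ∈ Finset.range (κ * (X * D) + 1), P m := by
    rintro p ⟨m, B, hb1, hb2, hb3, ha, hb⟩
    rw [Set.mem_iUnion₂]
    refine ⟨m, Finset.mem_range.2 ?_, B, ⟨hb1, hb2, hb3⟩, ha, hb⟩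
    have h5 := four_pow_le hb1 hb2
    have h6 : m < 4 ^ m := Nat.lt_pow_self (by norm_num)
    omega
  have hfin : (⋃ m ∈ Finset.range (κ * (X * D) + 1), P m).Finite :=
    Set.Finite.biUnion (Finset.finite_toSet _) fun m _ => hPfin m
  refine ⟨hfin.subset hsub, ?_⟩
  have hle : {p : ℤ × ℤ | ∃ (m : ℕ) (B : Tup ℤ), InBox κ (X * D) (2 ^ m) B ∧ B.x ≠ 0 ∧
      (∀ Q ∈ S, C Q B) ∧ chA B = p.1 ∧ chB B = p.2}.ncard ≤
      ∑ m ∈ Finset.range (κ * (X * D) + 1), (P m).ncard :=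
    (Set.ncard_le_ncard hsub hfin).trans (ncard_biUnion_le P (κ * (X * D) + 1))
  generalize {p : ℤ × ℤ | ∃ (m : ℕ) (B : Tup ℤ), InBox κ (X * D) (2 ^ m) B ∧ B.x ≠ 0 ∧
      (∀ Q ∈ S, C Q B) ∧ chA B = p.1 ∧ chB B = p.2}.ncard = nc at hle ⊢
  -- each term
  have hterm : ∀ m ∈ Finset.range (κ * (X * D) + 1),
      (A : ℝ) * ((P m).ncard : ℝ) ≤ (((K0 + K1 : ℕ) : ℝ) * (X : ℝ) ^ 5) * (3 / 4) ^ m := by
    intro m _
    have ho : (P m).ncard * 2 ^ m ≤ {B : Tup ℤ | XS (29 * κ) (X * D) (2 ^ m) S C B}.ncard :=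
      orb' κ S C hC (X * D) (2 ^ m) (hK0 S C (X * D) (2 ^ m) (hT m) hXD).1
    have hr0 : (0 : ℝ) < 2 ^ m := by positivity
    have hK0r : (0 : ℝ) ≤ (K0 : ℝ) * (X : ℝ) ^ 5 := by positivity
    have hK1r : (0 : ℝ) ≤ (K1 : ℝ) * (X : ℝ) ^ 5 := by positivity
    have hpw : (3 / 4 : ℝ) ^ m * 2 ^ m = (3 / 2) ^ m := by
      rw [← mul_pow]
      norm_num
    have h32 : (1 : ℝ) ≤ (3 / 2) ^ m := one_le_pow₀ (by norm_num)
    have hgoal : (A : ℝ) * ((P m).ncard : ℝ) * 2 ^ m ≤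
        ((K0 : ℝ) * (X : ℝ) ^ 5 + (K1 : ℝ) * (X : ℝ) ^ 5) * (3 / 2) ^ m := by
      by_cases hg : q * (2 ^ m) ^ 2 ≤ (29 * κ) * (X * D)
      · have hb := (box' (29 * κ) S mo C hmo hco (X * D) (2 ^ m) (hT m) (by rw [← hq]; exact hg)).2
        rw [← hq] at hb
        have hb' : A * {B : Tup ℤ | XS (29 * κ) (X * D) (2 ^ m) S C B}.ncard ≤ K1 * X ^ 5 := by
          have hq5 : 0 < q ^ 5 * D ^ 5 := by positivity
          refine Nat.le_of_mul_le_mul_left ?_ hq5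
          calc q ^ 5 * D ^ 5 * (A * {B : Tup ℤ | XS (29 * κ) (X * D) (2 ^ m) S C B}.ncard) =
              E * (q ^ 5 * {B : Tup ℤ | XS (29 * κ) (X * D) (2 ^ m) S C B}.ncard) := by
                rw [hE]; ring
            _ ≤ E * ((∏ Q ∈ S, NC (mo Q) (C Q)) * ((4 * (29 * κ)) ^ 5 * (X * D) ^ 5)) :=
                Nat.mul_le_mul_left _ hb
            _ = (E * ∏ Q ∈ S, NC (mo Q) (C Q)) * ((4 * (29 * κ)) ^ 5 * (X * D) ^ 5) := by ring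
            _ ≤ q ^ 5 * ((4 * (29 * κ)) ^ 5 * (X * D) ^ 5) := Nat.mul_le_mul_right _ hden'
            _ = q ^ 5 * D ^ 5 * (K1 * X ^ 5) := by rw [hK1d]; ring
        have h5 : A * (P m).ncard * 2 ^ m ≤ K1 * X ^ 5 := by
          calc A * (P m).ncard * 2 ^ m = A * ((P m).ncard * 2 ^ m) := by ring
            _ ≤ A * {B : Tup ℤ | XS (29 * κ) (X * D) (2 ^ m) S C B}.ncard :=
              Nat.mul_le_mul_left _ ho
            _ ≤ _ := hb'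
        have h6 : (A : ℝ) * ((P m).ncard : ℝ) * 2 ^ m ≤ (K1 : ℝ) * (X : ℝ) ^ 5 := by
          exact_mod_cast h5
        nlinarith
      · rcases Nat.eq_zero_or_pos κ with hκ | hκ
        · have hPe : P m = ∅ := by
            rw [Set.eq_empty_iff_forall_notMem]
            rintro p ⟨B, hB, _, _⟩
            have h5 := four_pow_le hB.box hB.nz
            rw [hκ, zero_mul] at h5
            have h6 : 0 < 4 ^ m := by positivity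
            omega
          rw [hPe, Set.ncard_empty]
          simp only [Nat.cast_zero, mul_zero, zero_mul]
          positivity
        · have hb := (hK0 S C (X * D) (2 ^ m) (hT m) hXD).2
          have h5 : (P m).ncard * 2 ^ m ≤ K0 * (X * D) ^ 5 := ho.trans hb
          have h6 : ((P m).ncard : ℝ) * 2 ^ m ≤ (K0 : ℝ) * ((X : ℝ) * D) ^ 5 := by
            exact_mod_cast h5
          have h7 : 29 * κ * (X * D) < q * (2 ^ m) ^ 2 := by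
            push Not at hg
            exact hg
          have h8 : E ^ 4 * q < q * (2 ^ m) ^ 2 := by
            refine lt_of_le_of_lt ?_ h7
            refine hX.le.trans ?_
            calc X = 1 * (X * 1) := by ring
              _ ≤ 29 * κ * (X * D) := Nat.mul_le_mul (by omega) (Nat.mul_le_mul_left _ hD)
          have h9 : E ^ 4 < (2 ^ m) ^ 2 := by
            rw [mul_comm] at h8
            exact Nat.lt_of_mul_lt_mul_left h8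
          have h10 : E ^ 2 < 2 ^ m := by
            have : (E ^ 2) ^ 2 < (2 ^ m) ^ 2 := by
              rw [← pow_mul]
              exact h9
            exact lt_of_pow_lt_pow_left₀ 2 (by positivity) this
          have h11 : (E : ℝ) ≤ (3 / 2) ^ m := by
            have h12 : (E : ℝ) ^ 2 ≤ ((3 / 2 : ℝ) ^ m) ^ 2 := by
              have h13 : (E : ℝ) ^ 2 ≤ 2 ^ m := by
                exact_mod_cast h10.le
              have h14 : (2 : ℝ) ^ m ≤ ((3 / 2 : ℝ) ^ m) ^ 2 := by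
                rw [← pow_mul, mul_comm, pow_mul]
                exact pow_le_pow_left₀ (by norm_num) (by norm_num) m
              exact h13.trans h14
            exact le_of_sq_le_sq h12 (by positivity)
          have hA0 : (0 : ℝ) ≤ A := Nat.cast_nonneg A
          have hEr : (E : ℝ) = A * (D : ℝ) ^ 5 := by rw [hE]; push_cast; rfl
          calc (A : ℝ) * ((P m).ncard : ℝ) * 2 ^ m = A * (((P m).ncard : ℝ) * 2 ^ m) := by ring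
            _ ≤ A * ((K0 : ℝ) * ((X : ℝ) * D) ^ 5) := mul_le_mul_of_nonneg_left h6 hA0
            _ = E * ((K0 : ℝ) * (X : ℝ) ^ 5) := by rw [hEr]; ring
            _ ≤ (3 / 2) ^ m * ((K0 : ℝ) * (X : ℝ) ^ 5) :=
                mul_le_mul_of_nonneg_right h11 hK0r
            _ ≤ ((K0 : ℝ) * (X : ℝ) ^ 5 + (K1 : ℝ) * (X : ℝ) ^ 5) * (3 / 2) ^ m := by
                nlinarith
    have h20 : (A : ℝ) * ((P m).ncard : ℝ) * 2 ^ m ≤
        ((((K0 + K1 : ℕ) : ℝ) * (X : ℝ) ^ 5) * (3 / 4) ^ m) * 2 ^ m := by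
      rw [mul_assoc (((K0 + K1 : ℕ) : ℝ) * (X : ℝ) ^ 5), hpw]
      refine hgoal.trans (le_of_eq ?_)
      push_cast
      ring
    exact le_of_mul_le_mul_right h20 hr0
  have hsum : (A : ℝ) * (nc : ℝ) ≤ 4 * ((K0 + K1 : ℕ) : ℝ) * (X : ℝ) ^ 5 := by
    have h5 : (nc : ℝ) ≤ ∑ m ∈ Finset.range (κ * (X * D) + 1), ((P m).ncard : ℝ) := by
      exact_mod_cast hle
    calc (A : ℝ) * (nc : ℝ) ≤
        A * ∑ m ∈ Finset.range (κ * (X * D) + 1), ((P m).ncard : ℝ) :=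
          mul_le_mul_of_nonneg_left h5 (Nat.cast_nonneg A)
      _ = ∑ m ∈ Finset.range (κ * (X * D) + 1), (A : ℝ) * ((P m).ncard : ℝ) := Finset.mul_sum _ _ _
      _ ≤ ∑ m ∈ Finset.range (κ * (X * D) + 1),
          (((K0 + K1 : ℕ) : ℝ) * (X : ℝ) ^ 5) * (3 / 4) ^ m := Finset.sum_le_sum hterm
      _ = (((K0 + K1 : ℕ) : ℝ) * (X : ℝ) ^ 5) * (4 * (1 - (3 / 4) ^ (κ * (X * D) + 1))) := by
          rw [← Finset.mul_sum, geo_sum]
      _ ≤ (((K0 + K1 : ℕ) : ℝ) * (X : ℝ) ^ 5) * 4 := by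
          refine mul_le_mul_of_nonneg_left ?_ (by positivity)
          have : (0 : ℝ) ≤ (3 / 4) ^ (κ * (X * D) + 1) := by positivity
          linarith
      _ = _ := by ring
  exact_mod_cast hsum

end Pool.Agent.H75.PR.Cnt
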