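import Pool.Agent.H62.PR.Stm
import Pool.Graph.R_pool_sql_team_seeded_63374d34.N907.PV.NF2

/-!
# Project PR (helper62), part I3, first file: norm forms and squares in the cubic extension of `F_p`

Author: helper75.
-/

set_option autoImplicit false

open Polynomial
open scoped Classical

namespace Pool.Agent.H75.PR

/-- The norm form of `u 0 + u 1 θ + u 2 θ ^ 2`, `θ ^ 3 + A θ + B = 0`. -/
def nf {R : Type} [CommRing R] (A B : R) (u : Fin 3 → R) : R :=
  u 0 * ((u 0 - A * u 2) * (u 0 - A * u 2) - (-B * u 2 - A * u 1) * u 1)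
    - (-B * u 2) * (u 1 * (u 0 - A * u 2) - (-B * u 2 - A * u 1) * u 2)
    + (-B * u 1) * (u 1 * u 1 - (u 0 - A * u 2) * u 2)

theorem nf_map {R S : Type} [CommRing R] [CommRing S] (f : R →+* S) (A B : R) (u : Fin 3 → R) :
    f (nf A B u) = nf (f A) (f B) (fun i => f (u i)) := by
  unfold nf
  simp only [map_add, map_sub, map_mul, map_neg]

/-- The polynomial `u 0 + u 1 X + u 2 X ^ 2`. -/
noncomputable def pl {R : Type} [CommRing R] (u : Fin 3 → R) : R[X] :=
  C (u 0) + C (u 1) * X + C (u 2) * X ^ 2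

/-- The cubic polynomial. -/
noncomputable def ff {R : Type} [CommRing R] (A B : R) : R[X] := X ^ 3 + C A * X + C B

theorem ff_map {R S : Type} [CommRing R] [CommRing S] (f : R →+* S) (A B : R) :
    (ff A B).map f = ff (f A) (f B) := by
  simp [ff]

theorem pl_map {R S : Type} [CommRing R] [CommRing S] (f : R →+* S) (u : Fin 3 → R) :
    (pl u).map f = pl (fun i => f (u i)) := by
  simp [pl]

theorem ff_natDegree {R : Type} [CommRing R] [Nontrivial R] (A B : R) : (ff A B).natDegree = 3 := by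
  unfold ff
  compute_degree!

theorem ff_monic {R : Type} [CommRing R] [Nontrivial R] (A B : R) : (ff A B).Monic := by
  unfold ff
  monicity!

theorem ff_irr {K : Type} [Field K] (A B : K) (h : ∀ z : K, z ^ 3 + A * z + B ≠ 0) :
    Irreducible (ff A B) := by
  have h1 := ff_natDegree A B
  rw [(ff_monic A B).irreducible_iff_roots_eq_zero_of_degree_le_three (by rw [h1]; norm_num)
    (by rw [h1])]
  rw [Multiset.eq_zero_iff_forall_notMem]
  intro z hz
  rw [mem_roots (ff_monic A B).ne_zero, IsRoot.def] at hz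
  apply h z
  simpa [ff] using hz

theorem norm_form {K L : Type} [Field K] [Field L] [Algebra K L] (b : Module.Basis (Fin 3) K L)
    (t : L) (hb : ∀ i : Fin 3, b i = t ^ (i : ℕ)) (A B : K)
    (ht : t ^ 3 + algebraMap K L A * t + algebraMap K L B = 0) (u : Fin 3 → K) :
    Algebra.norm K (aeval t (pl u)) = nf A B u := by
  have hx : ∀ v : Fin 3 → K, ∀ i, b.repr (aeval t (pl v)) i = v i := by
    intro v i
    have e : aeval t (pl v) = ∑ j, v j • b j := by
      simp only [pl, Fin.sum_univ_three, hb, map_add, map_mul, map_pow, aeval_C, aeval_X,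
        Algebra.smul_def, Fin.val_zero, Fin.val_one, Fin.val_two]
      ring
    rw [e, Module.Basis.repr_sum_self]
  have hm : ∀ v : Fin 3 → K, aeval t (pl v) * t =
      aeval t (pl ![-B * v 2, v 0 - A * v 2, v 1]) := by
    intro v
    simp only [pl, map_add, map_mul, map_pow, aeval_C, aeval_X, Matrix.cons_val_zero,
      Matrix.cons_val_one, Matrix.cons_val, map_sub, map_neg]
    linear_combination (algebraMap K L (v 2)) * ht
  have e2 : aeval t (pl u) * t ^ 2 = aeval t (pl u) * t * t := by ring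
  rw [Algebra.norm_eq_matrix_det b, Matrix.det_fin_three]
  simp only [Algebra.leftMulMatrix_eq_repr_mul, hb, Fin.val_zero, Fin.val_one, Fin.val_two,
    pow_zero, mul_one, pow_one]
  rw [e2, hm u, hm]
  simp only [hx, Matrix.cons_val_zero, Matrix.cons_val_one, Matrix.cons_val]
  unfold nf
  ring

section fp

variable (p : ℕ) [Fact p.Prime]

theorem basis3 {K : Type} [Field K] (A B : K) :
    ∃ b : Module.Basis (Fin 3) K (AdjoinRoot (ff A B)),
      ∀ i : Fin 3, b i = AdjoinRoot.root (ff A B) ^ (i : ℕ) := by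
  let pb := AdjoinRoot.powerBasis (ff_monic A B).ne_zero
  have hd : pb.dim = 3 := ff_natDegree A B
  refine ⟨pb.basis.reindex (finCongr hd), fun i => ?_⟩
  rw [Module.Basis.reindex_apply, pb.basis_eq_pow]
  simp [pb]

theorem root_eq {K : Type} [Field K] (A B : K) :
    AdjoinRoot.root (ff A B) ^ 3 + algebraMap K (AdjoinRoot (ff A B)) A *
      AdjoinRoot.root (ff A B) + algebraMap K (AdjoinRoot (ff A B)) B = 0 := by
  have h : AdjoinRoot.mk (ff A B) (X ^ 3 + C A * X + C B) = 0 := AdjoinRoot.mk_self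
  rw [map_add, map_add, map_mul, map_pow, AdjoinRoot.mk_X, AdjoinRoot.mk_C, AdjoinRoot.mk_C] at h
  exact h

/-- Elements of square norm of the cubic extension of `F_p` are squares. -/
theorem isSquare_of_norm (hp : p ≠ 2) (A B : ZMod p) (hirr : ∀ z : ZMod p, z ^ 3 + A * z + B ≠ 0)
    (u : Fin 3 → ZMod p) (w : ZMod p) (hw : w ≠ 0) (hN : nf A B u = w ^ 2) :
    IsSquare (AdjoinRoot.mk (ff A B) (pl u)) ∧ AdjoinRoot.mk (ff A B) (pl u) ≠ 0 ∧
    ∀ x : AdjoinRoot (ff A B), x ≠ 0 → x ^ (p ^ 3 - 1) = 1 := by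
  have : Fact (Irreducible (ff A B)) := ⟨ff_irr A B hirr⟩
  obtain ⟨b, hb⟩ := basis3 A B
  have hfr : Module.finrank (ZMod p) (AdjoinRoot (ff A B)) = 3 := by
    rw [Module.finrank_eq_card_basis b, Fintype.card_fin]
  have : Module.Finite (ZMod p) (AdjoinRoot (ff A B)) := Module.Finite.of_basis b
  have : Finite (AdjoinRoot (ff A B)) := Module.finite_of_finite (ZMod p)
  let _ : Fintype (AdjoinRoot (ff A B)) := Fintype.ofFinite _
  have hcard : Fintype.card (AdjoinRoot (ff A B)) = p ^ 3 := by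
    rw [Module.card_eq_pow_finrank (K := ZMod p), hfr, ZMod.card]
  have hn : Algebra.norm (ZMod p) (AdjoinRoot.mk (ff A B) (pl u)) = w ^ 2 := by
    rw [← hN, ← norm_form b _ hb A B (root_eq A B) u, AdjoinRoot.aeval_eq]
  have hne : AdjoinRoot.mk (ff A B) (pl u) ≠ 0 := by
    intro h0
    rw [h0, Algebra.norm_zero] at hn
    exact hw (pow_eq_zero_iff (two_ne_zero) |>.1 hn.symm)
  have hp1 : 1 < p := (Fact.out : p.Prime).one_lt
  have hodd : Odd p := (Fact.out : p.Prime).odd_of_ne_two hp
  refine ⟨?_, hne, ?_⟩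
  · have hchar : ringChar (AdjoinRoot (ff A B)) ≠ 2 := by
      have h1 : CharP (AdjoinRoot (ff A B)) p := charP_of_injective_algebraMap
        (algebraMap (ZMod p) (AdjoinRoot (ff A B))).injective p
      have h2 : ringChar (AdjoinRoot (ff A B)) = p := ringChar.eq (AdjoinRoot (ff A B)) p
      intro h3
      exact hp (h2.symm.trans h3)
    rw [FiniteField.isSquare_iff hchar hne, hcard]
    have h2 := FiniteField.algebraMap_norm_eq_pow (K := ZMod p)
      (x := AdjoinRoot.mk (ff A B) (pl u))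
    rw [Nat.card_eq_fintype_card, Nat.card_eq_fintype_card, hcard, ZMod.card, hn] at h2
    obtain ⟨k, hk⟩ := hodd
    have h3 : (p ^ 3 - 1) / (p - 1) = p ^ 2 + p + 1 := by
      have : p ^ 3 - 1 = (p ^ 2 + p + 1) * (p - 1) := by
        obtain ⟨m, hm⟩ : ∃ m, p = m + 1 := ⟨p - 1, by omega⟩
        rw [hm]
        have : (m + 1) ^ 3 = ((m + 1) ^ 2 + (m + 1) + 1) * m + 1 := by ring
        rw [this]
        simp
      rw [this, Nat.mul_div_cancel _ (by omega)]
    have h4 : p ^ 3 / 2 = (p ^ 2 + p + 1) * k := by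
      have : p ^ 3 = 2 * ((p ^ 2 + p + 1) * k) + 1 := by
        rw [hk]; ring
      omega
    rw [h4, pow_mul, ← h3, ← h2, ← map_pow, ← pow_mul]
    have h5 : 2 * k = p - 1 := by omega
    rw [h5, ZMod.pow_card_sub_one_eq_one hw, map_one]
  · intro x hx
    have := FiniteField.pow_card_sub_one_eq_one x hx
    rwa [hcard] at this

end fp

end Pool.Agent.H75.PR
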