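import Pool.Agent.H75.PR.I3a

/-!
# Project PR (helper62), part I3, second file: squares over the `p`-adic integers

Author: helper75.
-/

set_option autoImplicit false

open Polynomial
open scoped Classical

namespace Pool.Agent.H75.PR

theorem pl_coeff {R : Type} [CommRing R] (u : Fin 3 → R) (i : Fin 3) :
    (pl u).coeff (i : ℕ) = u i := by
  unfold pl
  fin_cases i <;>
    simp [coeff_X, coeff_X_pow, coeff_C]

theorem pl_inj {R : Type} [CommRing R] {u v : Fin 3 → R} (h : pl u = pl v) : u = v := by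
  funext i
  rw [← pl_coeff u i, ← pl_coeff v i, h]

theorem pl_degree_lt {R : Type} [CommRing R] (u : Fin 3 → R) : (pl u).degree < 3 := by
  unfold pl
  refine lt_of_le_of_lt (b := (2 : WithBot ℕ)) ?_ (by norm_num)
  compute_degree

theorem exists_pl {R : Type} [CommRing R] (g : R[X]) (h : g.degree < 3) :
    ∃ u : Fin 3 → R, g = pl u := by
  refine ⟨fun i => g.coeff i, ?_⟩
  ext n
  by_cases hn : n < 3
  · exact (pl_coeff (fun i : Fin 3 => g.coeff (i : ℕ)) ⟨n, hn⟩).symm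
  · have h3 : (3 : WithBot ℕ) ≤ n := by exact_mod_cast not_lt.1 hn
    rw [coeff_eq_zero_of_degree_lt (h.trans_le h3),
      coeff_eq_zero_of_degree_lt ((pl_degree_lt _).trans_le h3)]

theorem ff_degree {R : Type} [CommRing R] [Nontrivial R] (A B : R) : (ff A B).degree = 3 := by
  rw [degree_eq_natDegree (ff_monic A B).ne_zero, ff_natDegree]
  rfl

theorem mk_exists {R : Type} [CommRing R] [Nontrivial R] (A B : R) (x : AdjoinRoot (ff A B)) :
    ∃ u : Fin 3 → R, x = AdjoinRoot.mk (ff A B) (pl u) := by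
  obtain ⟨g, rfl⟩ := AdjoinRoot.mk_surjective x
  obtain ⟨u, hu⟩ := exists_pl (g %ₘ ff A B) (by
    have := degree_modByMonic_lt g (ff_monic A B)
    rwa [ff_degree] at this)
  refine ⟨u, ?_⟩
  rw [← hu, AdjoinRoot.mk_eq_mk]
  refine ⟨g /ₘ ff A B, ?_⟩
  have := modByMonic_add_div g (ff A B)
  linear_combination -this

theorem mk_inj {R : Type} [CommRing R] [Nontrivial R] (A B : R) {u v : Fin 3 → R}
    (h : AdjoinRoot.mk (ff A B) (pl u) = AdjoinRoot.mk (ff A B) (pl v)) : u = v := by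
  rw [AdjoinRoot.mk_eq_mk] at h
  have h1 : pl u - pl v = 0 := by
    by_contra h2
    refine (ff_monic A B).not_dvd_of_degree_lt h2 ?_ h
    rw [ff_degree]
    exact lt_of_le_of_lt (degree_sub_le _ _) (max_lt (pl_degree_lt _) (pl_degree_lt _))
  exact pl_inj (sub_eq_zero.1 h1)

/-- The coordinates of the square. -/
def Qc {R : Type} [CommRing R] (A B : R) (c : Fin 3 → R) : Fin 3 → R :=
  ![c 0 ^ 2 - 2 * c 1 * c 2 * B, 2 * c 0 * c 1 - 2 * c 1 * c 2 * A - c 2 ^ 2 * B,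
    2 * c 0 * c 2 + c 1 ^ 2 - c 2 ^ 2 * A]

theorem sq_pl {R : Type} [CommRing R] (A B : R) (c : Fin 3 → R) :
    pl c ^ 2 - ff A B * (C (c 2 ^ 2) * X + C (2 * c 1 * c 2)) = pl (Qc A B c) := by
  simp only [pl, ff, Qc, Matrix.cons_val_zero, Matrix.cons_val_one, Matrix.cons_val, map_sub,
    map_add, map_mul, map_pow, map_ofNat]
  ring

theorem mk_sq {R : Type} [CommRing R] (A B : R) (c : Fin 3 → R) :
    AdjoinRoot.mk (ff A B) (pl c) ^ 2 = AdjoinRoot.mk (ff A B) (pl (Qc A B c)) := by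
  rw [← map_pow, AdjoinRoot.mk_eq_mk, ← sq_pl A B c]
  exact ⟨C (c 2 ^ 2) * X + C (2 * c 1 * c 2), by ring⟩

theorem pl_sub {R : Type} [CommRing R] (u v : Fin 3 → R) : pl u - pl v = pl (fun i => u i - v i) := by
  simp only [pl, map_sub]
  ring

theorem pl_smul {R : Type} [CommRing R] (r : R) (v : Fin 3 → R) : C r * pl v = pl (fun i => r * v i) := by
  simp only [pl, map_mul]
  ring

/-- If `N` divides `u` in `R[θ]`, then it divides the coordinates. -/
theorem dvd_coord {R : Type} [CommRing R] [Nontrivial R] (A B : R) (u : Fin 3 → R) (N : R)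
    (h : algebraMap R (AdjoinRoot (ff A B)) N ∣ AdjoinRoot.mk (ff A B) (pl u)) (i : Fin 3) :
    N ∣ u i := by
  obtain ⟨x, hx⟩ := h
  obtain ⟨v, rfl⟩ := mk_exists A B x
  have e : algebraMap R (AdjoinRoot (ff A B)) N = AdjoinRoot.mk (ff A B) (C N) := rfl
  rw [e, ← map_mul, pl_smul] at hx
  have := mk_inj A B hx
  exact ⟨v i, congrFun this i⟩

theorem coord_dvd {R : Type} [CommRing R] [Nontrivial R] (A B : R) (u : Fin 3 → R) (N : R)
    (h : ∀ i, N ∣ u i) :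
    algebraMap R (AdjoinRoot (ff A B)) N ∣ AdjoinRoot.mk (ff A B) (pl u) := by
  choose v hv using h
  have e : algebraMap R (AdjoinRoot (ff A B)) N = AdjoinRoot.mk (ff A B) (C N) := rfl
  refine ⟨AdjoinRoot.mk (ff A B) (pl v), ?_⟩
  rw [e, ← map_mul, pl_smul]
  congr 2
  funext i
  exact hv i

section padic

variable (p : ℕ) [Fact p.Prime]

theorem dvd_iff_toZMod (x : ℤ_[p]) : (p : ℤ_[p]) ∣ x ↔ PadicInt.toZMod x = 0 := by
  rw [← RingHom.mem_ker, PadicInt.ker_toZMod, PadicInt.maximalIdeal_eq_span_p,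
    Ideal.mem_span_singleton]

/-- Reduction modulo `p`. -/
noncomputable def redh (A B : ℤ_[p]) : AdjoinRoot (ff A B) →+*
    AdjoinRoot (ff (PadicInt.toZMod A) (PadicInt.toZMod B)) :=
  AdjoinRoot.map PadicInt.toZMod _ _ (dvd_of_eq (ff_map _ _ _).symm)

theorem redh_mk (A B : ℤ_[p]) (g : ℤ_[p][X]) :
    redh p A B (AdjoinRoot.mk (ff A B) g) =
      AdjoinRoot.mk (ff (PadicInt.toZMod A) (PadicInt.toZMod B)) (g.map PadicInt.toZMod) := by
  induction g using Polynomial.induction_on' with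
  | add f g hf hg => rw [map_add, map_add, hf, hg, Polynomial.map_add, map_add]
  | monomial n a =>
    rw [← C_mul_X_pow_eq_monomial, map_mul, map_mul, map_pow, map_pow, AdjoinRoot.mk_C,
      AdjoinRoot.mk_X, Polynomial.map_mul, Polynomial.map_pow, Polynomial.map_C, Polynomial.map_X,
      map_mul, map_pow, AdjoinRoot.mk_C, AdjoinRoot.mk_X]
    unfold redh
    rw [AdjoinRoot.map_of, AdjoinRoot.map_root]

theorem redh_zero (A B : ℤ_[p]) (x : AdjoinRoot (ff A B)) (h : redh p A B x = 0) :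
    (p : AdjoinRoot (ff A B)) ∣ x := by
  obtain ⟨u, rfl⟩ := mk_exists A B x
  rw [redh_mk, pl_map] at h
  have h0 : AdjoinRoot.mk (ff (PadicInt.toZMod A) (PadicInt.toZMod B)) (pl fun i =>
      PadicInt.toZMod (u i)) = AdjoinRoot.mk (ff (PadicInt.toZMod A) (PadicInt.toZMod B))
        (pl fun _ => 0) := by
    rw [h]
    simp [pl]
  have h1 := mk_inj _ _ h0
  have h2 := coord_dvd A B u (p : ℤ_[p]) (fun i => (dvd_iff_toZMod p _).2 (congrFun h1 i))
  rwa [map_natCast] at h2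

theorem redh_surj (A B : ℤ_[p]) (y : AdjoinRoot (ff (PadicInt.toZMod A) (PadicInt.toZMod B))) :
    ∃ x, redh p A B x = y := by
  obtain ⟨v, rfl⟩ := mk_exists _ _ y
  have hs : ∀ i, ∃ z : ℤ_[p], PadicInt.toZMod z = v i := fun i =>
    ZMod.ringHom_surjective PadicInt.toZMod (v i)
  choose u hu using hs
  refine ⟨AdjoinRoot.mk _ (pl u), ?_⟩
  rw [redh_mk, pl_map]
  congr 2
  funext i
  exact hu i

/-- Approximate square roots. -/
theorem approx_root (hp : p ≠ 2) (A B : ℤ_[p])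
    (hirr : ∀ z : ZMod p, z ^ 3 + PadicInt.toZMod A * z + PadicInt.toZMod B ≠ 0)
    (u : Fin 3 → ℤ_[p]) (w : ZMod p) (hw : w ≠ 0)
    (hN : nf (PadicInt.toZMod A) (PadicInt.toZMod B) (fun i => PadicInt.toZMod (u i)) = w ^ 2)
    (n : ℕ) : ∃ g : AdjoinRoot (ff A B), ((p : AdjoinRoot (ff A B)) ^ (n + 1)) ∣
      AdjoinRoot.mk (ff A B) (pl u) - g ^ 2 := by
  obtain ⟨h1, h2, h3⟩ := isSquare_of_norm p hp _ _ hirr _ w hw hN
  obtain ⟨y, hy⟩ := h1
  obtain ⟨s, hs⟩ := redh_surj p A B y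
  have hy0 : y ≠ 0 := by
    rintro rfl
    rw [mul_zero] at hy
    exact h2 hy
  have hu : redh p A B (AdjoinRoot.mk (ff A B) (pl u)) = y * y := by
    rw [redh_mk, pl_map, hy]
  generalize AdjoinRoot.mk (ff A B) (pl u) = U at hu
  have hp1 : 1 < p := (Fact.out : p.Prime).one_lt
  have hodd : Odd (p ^ n) := ((Fact.out : p.Prime).odd_of_ne_two hp).pow
  obtain ⟨q, hq⟩ : ∃ q, p ^ 3 - 1 = q + 1 := ⟨p ^ 3 - 2, by
    have : 2 ^ 3 ≤ p ^ 3 := Nat.pow_le_pow_left hp1 3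
    omega⟩
  obtain ⟨m, hm⟩ : ∃ m, p ^ n + 1 = 2 * m := by
    obtain ⟨k, hk⟩ := hodd
    exact ⟨k + 1, by omega⟩
  obtain ⟨e, he⟩ : ∃ e, (p ^ 3 - 1) * p ^ n = e + 1 := by
    have h4 : 0 < (p ^ 3 - 1) * p ^ n := Nat.mul_pos (by omega) (by positivity)
    exact ⟨(p ^ 3 - 1) * p ^ n - 1, by omega⟩
  set t := s ^ e with ht
  -- `s * t ≡ 1`
  have hst : ((p : AdjoinRoot (ff A B)) ^ (n + 1)) ∣ s * t - 1 := by
    have h5 : (p : AdjoinRoot (ff A B)) ∣ s ^ (p ^ 3 - 1) - 1 := by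
      apply redh_zero
      rw [map_sub, map_pow, map_one, hs, h3 y hy0, sub_self]
    have h6 := dvd_sub_pow_of_dvd_sub h5 n
    have h10 : s * t = (s ^ (p ^ 3 - 1)) ^ p ^ n := by
      rw [← pow_mul, he, pow_succ', ht]
    rw [h10]
    rwa [one_pow] at h6
  have hx : (p : AdjoinRoot (ff A B)) ∣ U * t ^ 2 - 1 := by
    apply redh_zero
    rw [map_sub, map_mul, map_pow, map_one, hu, ht, map_pow, hs]
    have h7 : y * y * (y ^ e) ^ 2 = (y ^ (e + 1)) ^ 2 := by ring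
    rw [h7, ← he, pow_mul, h3 y hy0, one_pow, one_pow, sub_self]
  have hx2 := dvd_sub_pow_of_dvd_sub hx n
  rw [one_pow] at hx2
  refine ⟨s * (U * t ^ 2) ^ m, ?_⟩
  have h8 : U - (s * (U * t ^ 2) ^ m) ^ 2 =
      -(s ^ 2 * (U * t ^ 2)) * ((U * t ^ 2) ^ p ^ n - 1) - U * (s * t + 1) * (s * t - 1) := by
    have h9 : (s * (U * t ^ 2) ^ m) ^ 2 = s ^ 2 * ((U * t ^ 2) ^ p ^ n * (U * t ^ 2)) := by
      have h11 : (U * t ^ 2) ^ p ^ n * (U * t ^ 2) = (U * t ^ 2) ^ (2 * m) := by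
        rw [← hm]
        exact (pow_succ _ _).symm
      rw [h11]
      ring
    rw [h9]
    ring
  rw [h8]
  exact dvd_sub (Dvd.dvd.mul_left hx2 _) (Dvd.dvd.mul_left hst _)

theorem exact_root (hp : p ≠ 2) (A B : ℤ_[p])
    (hirr : ∀ z : ZMod p, z ^ 3 + PadicInt.toZMod A * z + PadicInt.toZMod B ≠ 0)
    (u : Fin 3 → ℤ_[p]) (w : ZMod p) (hw : w ≠ 0)
    (hN : nf (PadicInt.toZMod A) (PadicInt.toZMod B) (fun i => PadicInt.toZMod (u i)) = w ^ 2) :
    ∃ c : Fin 3 → ℤ_[p], u = Qc A B c := by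
  let S : ℕ → Set (Fin 3 → ℤ_[p]) := fun n =>
    {c | ∀ i, ‖u i - Qc A B c i‖ ≤ (p : ℝ) ^ (-((n + 1 : ℕ) : ℤ))}
  have hp1 : 1 < p := (Fact.out : p.Prime).one_lt
  have hcont : ∀ i, Continuous fun c : Fin 3 → ℤ_[p] => u i - Qc A B c i := by
    intro i
    unfold Qc
    fin_cases i
    · show Continuous fun c : Fin 3 → ℤ_[p] => u 0 - (c 0 ^ 2 - 2 * c 1 * c 2 * B)
      fun_prop
    · show Continuous fun c : Fin 3 → ℤ_[p] => u 1 -
        (2 * c 0 * c 1 - 2 * c 1 * c 2 * A - c 2 ^ 2 * B)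
      fun_prop
    · show Continuous fun c : Fin 3 → ℤ_[p] => u 2 -
        (2 * c 0 * c 2 + c 1 ^ 2 - c 2 ^ 2 * A)
      fun_prop
  have hcl : ∀ n, IsClosed (S n) := by
    intro n
    have : S n = ⋂ i, {c | ‖u i - Qc A B c i‖ ≤ (p : ℝ) ^ (-((n + 1 : ℕ) : ℤ))} := by
      ext c
      simp [S]
    rw [this]
    exact isClosed_iInter fun i => isClosed_le (hcont i).norm continuous_const
  have hne : ∀ n, (S n).Nonempty := by
    intro n
    obtain ⟨g, hg⟩ := approx_root p hp A B hirr u w hw hN n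
    obtain ⟨c, rfl⟩ := mk_exists A B g
    refine ⟨c, fun i => ?_⟩
    rw [PadicInt.norm_le_pow_iff_mem_span_pow, Ideal.mem_span_singleton]
    rw [mk_sq, ← map_sub, pl_sub] at hg
    refine dvd_coord A B (fun i => u i - Qc A B c i) _ ?_ i
    rw [map_pow, map_natCast]
    exact hg
  have hdec : ∀ n, S (n + 1) ⊆ S n := by
    intro n c hc i
    refine (hc i).trans ?_
    exact zpow_le_zpow_right₀ (by exact_mod_cast hp1.le) (by push_cast; linarith)
  obtain ⟨c, hc⟩ := IsCompact.nonempty_iInter_of_sequence_nonempty_isCompact_isClosed S hdec hne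
    (hcl 0).isCompact hcl
  refine ⟨c, funext fun i => ?_⟩
  rw [Set.mem_iInter] at hc
  have h0 : ‖u i - Qc A B c i‖ ≤ 0 := by
    refine ge_of_tendsto' (f := fun n : ℕ => ((p : ℝ)⁻¹) ^ n * (p : ℝ)⁻¹) (x := Filter.atTop) ?_ ?_
    · have := (tendsto_pow_atTop_nhds_zero_of_lt_one (r := (p : ℝ)⁻¹) (by positivity)
        (inv_lt_one_of_one_lt₀ (by exact_mod_cast hp1))).mul_const ((p : ℝ)⁻¹)
      simpa using this
    · intro n
      have := hc n i
      rw [zpow_neg, zpow_natCast, pow_succ, mul_inv, ← inv_pow] at this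
      exact this
  have h1 : ‖u i - Qc A B c i‖ = 0 := le_antisymm h0 (norm_nonneg _)
  rw [norm_eq_zero] at h1
  exact sub_eq_zero.1 h1

end padic

end Pool.Agent.H75.PR
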